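import Pool.Agent.H84.B.Main

/-!
# Bergelson's question: 2-recurrence of powers versus commuting transformations

There is a sequence of integers which is good for 2-recurrence of powers but not good for
2-recurrence of commuting transformations.
-/

open MeasureTheory

namespace Pool.Agent.Results.MP_02e9fb_an.PowersNotCommuting

/-- `a` is good for `2`-recurrence of powers (for systems on types in universe `u`): for all
integers `k₁, k₂`, every invertible measure preserving transformation `T` of a probability space
and every measurable set `A` of positive measure there is `n` with `a n ≠ 0` and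
`μ (A ∩ T^{-k₁ a(n)} A ∩ T^{-k₂ a(n)} A) > 0`. Here `T^{-m} A` is the preimage of `A` under `T^m`. -/
def GoodForPowers.{u} (a : ℕ → ℤ) : Prop :=
  ∀ (k₁ k₂ : ℤ) (X : Type u) [MeasurableSpace X] (μ : Measure X) [IsProbabilityMeasure μ]
    (T : X ≃ᵐ X), MeasurePreserving T μ μ → ∀ A : Set X, MeasurableSet A → 0 < μ A →
    ∃ n : ℕ, a n ≠ 0 ∧
      0 < μ (A ∩ ((T.toEquiv : Equiv.Perm X) ^ (k₁ * a n)) ⁻¹' A
            ∩ ((T.toEquiv : Equiv.Perm X) ^ (k₂ * a n)) ⁻¹' A)

/-- `a` is good for `2`-recurrence of commuting transformations (for systems on types in universe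
`u`): for every probability space, all commuting invertible measure preserving transformations
`T₁, T₂` and every measurable set `A` of positive measure there is `n` with `a n ≠ 0` and
`μ (A ∩ T₁^{-a(n)} A ∩ T₂^{-a(n)} A) > 0`. -/
def GoodForCommuting.{u} (a : ℕ → ℤ) : Prop :=
  ∀ (X : Type u) [MeasurableSpace X] (μ : Measure X) [IsProbabilityMeasure μ]
    (T₁ T₂ : X ≃ᵐ X), MeasurePreserving T₁ μ μ → MeasurePreserving T₂ μ μ →
    (∀ x, T₁ (T₂ x) = T₂ (T₁ x)) → ∀ A : Set X, MeasurableSet A → 0 < μ A →
    ∃ n : ℕ, a n ≠ 0 ∧
      0 < μ (A ∩ ((T₁.toEquiv : Equiv.Perm X) ^ (a n)) ⁻¹' A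
            ∩ ((T₂.toEquiv : Equiv.Perm X) ^ (a n)) ⁻¹' A)

/-- There is a sequence of integers that is good for `2`-recurrence of powers (for probability
spaces in every universe `u`) but is not good for `2`-recurrence of commuting transformations
(already for a probability space in `Type`). -/
theorem result.{u} : ∃ a : ℕ → ℤ, GoodForPowers.{u} a ∧ ¬ GoodForCommuting.{0} a :=
  Pool.Agent.H84.B.main

end Pool.Agent.Results.MP_02e9fb_an.PowersNotCommuting
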